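import Pool.Agent.Helper75.PZ.Stmts

/-!
# Row CU: the parameter of a cyclic cubic algebra has transcendental residue
-/

set_option autoImplicit false

universe u

namespace Pool.Agent.Helper34.PZ

open Pool.Agent.Helper75.PX Pool.Agent.Helper75.PZ

theorem g2_two {a : G2} (h : a + a = 0) : a = 0 := by
  have h1 : (ofLex a).1 + (ofLex a).1 = 0 := congrArg (fun b : G2 => (ofLex b).1) h
  have h2 : (ofLex a).2 + (ofLex a).2 = 0 := congrArg (fun b : G2 => (ofLex b).2) h
  apply ofLex.injective
  apply Prod.ext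
  · show (ofLex a).1 = 0
    omega
  · show (ofLex a).2 = 0
    omega

theorem n1_zero : n1 0 = 0 := rfl

theorem n2_zero : n2 0 = 0 := rfl

theorem unit_left {A : Type u} [Ring A] {v x : A} (h : v * x = 1) (z : A) (hz : z ≠ 0) :
    x * z ≠ 0 := by
  intro h0
  apply hz
  have h1 : v * (x * z) = z := by rw [← mul_assoc, h, one_mul]
  rw [← h1, h0, mul_zero]

theorem cu_alg {F M : Type u} [Field F] [Field M] [Algebra F M] (a b d : F) (m : M)
    (h : m ^ 3 + algebraMap F M a * m ^ 2 + algebraMap F M b * m + algebraMap F M d = 0) :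
    IsAlgebraic F m := by
  refine ⟨Polynomial.X ^ 3 + Polynomial.C a * Polynomial.X ^ 2 + Polynomial.C b * Polynomial.X +
    Polynomial.C d, ?_, ?_⟩
  · intro h0
    have h1 := congrArg (fun p : Polynomial F => p.coeff 3) h0
    simp at h1
  · simpa using h

section
variable {F K A M : Type u} [Field F] [Field K] [Field M] [Ring A]
  [Algebra F K] [Algebra K A] [Algebra F M] {σ : M ≃ₐ[F] M} {g : A → G2} {c : A → M}

/-- residues -/
def Rs (g : A → G2) (c : A → M) (x : A) (r : M) : Prop :=
  (x ≠ 0 ∧ g x = 0 ∧ c x = r) ∨ (r = 0 ∧ (x = 0 ∨ 0 < g x))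

theorem rs_add (hS : SYM (F := F) (K := K) σ g c) {x y : A} {r s : M} (hx : Rs g c x r)
    (hy : Rs g c y s) : Rs g c (x + y) (r + s) := by
  rcases hx with ⟨x0, xg, xc⟩ | ⟨r0, hx⟩
  · rcases hy with ⟨y0, yg, yc⟩ | ⟨s0, hy⟩
    · by_cases h : r + s = 0
      · right
        refine ⟨h, ?_⟩
        have h1 := hS.addz x y x0 y0 (by rw [xg, yg]) (by rw [xc, yc, h])
        rw [xg] at h1
        exact h1
      · left
        have h1 := hS.addeq x y x0 y0 (by rw [xg, yg]) (by rw [xc, yc]; exact h)
        exact ⟨h1.1, by rw [h1.2.1, xg], by rw [h1.2.2, xc, yc]⟩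
    · left
      by_cases y0 : y = 0
      · rw [y0, add_zero, s0, add_zero]
        exact ⟨x0, xg, xc⟩
      · have hyg : 0 < g y := hy.resolve_left y0
        have h1 := hS.addlt x y x0 y0 (by rw [xg]; exact hyg)
        rw [s0, add_zero]
        exact ⟨h1.1, by rw [h1.2.1, xg], by rw [h1.2.2, xc]⟩
  · rcases hy with ⟨y0, yg, yc⟩ | ⟨s0, hy⟩
    · left
      by_cases x0 : x = 0
      · rw [x0, zero_add, r0, zero_add]
        exact ⟨y0, yg, yc⟩
      · have hxg : 0 < g x := hx.resolve_left x0
        have h1 := hS.addlt y x y0 x0 (by rw [yg]; exact hxg)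
        rw [r0, zero_add, add_comm x y]
        exact ⟨h1.1, by rw [h1.2.1, yg], by rw [h1.2.2, yc]⟩
    · right
      refine ⟨by rw [r0, s0, add_zero], ?_⟩
      by_cases x0 : x = 0
      · rw [x0, zero_add]
        exact hy
      by_cases y0 : y = 0
      · rw [y0, add_zero]
        exact hx
      have hxg : 0 < g x := hx.resolve_left x0
      have hyg : 0 < g y := hy.resolve_left y0
      rcases lt_trichotomy (g x) (g y) with h | h | h
      · right
        rw [(hS.addlt x y x0 y0 h).2.1]
        exact hxg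
      · by_cases hc : c x + c y = 0
        · rcases hS.addz x y x0 y0 h hc with h1 | h1
          · exact Or.inl h1
          · exact Or.inr (hxg.trans h1)
        · right
          rw [(hS.addeq x y x0 y0 h hc).2.1]
          exact hxg
      · right
        rw [add_comm x y, (hS.addlt y x y0 x0 h).2.1]
        exact hyg

theorem rs_mul (hS : SYM (F := F) (K := K) σ g c) {x y : A} {s : M} (x0 : x ≠ 0)
    (xu : ∀ z, z ≠ 0 → x * z ≠ 0)
    (xg : g x = 0) (hy : Rs g c y s) : Rs g c (x * y) (c x * s) := by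
  rcases hy with ⟨y0, yg, yc⟩ | ⟨s0, hy⟩
  · left
    refine ⟨xu y y0, by rw [hS.gmul x y x0 y0, xg, yg, add_zero], ?_⟩
    rw [hS.cmul x y x0 y0, xg, n1_zero, zero_mul, zpow_zero, zpow_zero, AlgEquiv.one_apply,
      mul_one, yc]
  · right
    refine ⟨by rw [s0, mul_zero], ?_⟩
    by_cases y0 : y = 0
    · left
      rw [y0, mul_zero]
    · right
      rw [hS.gmul x y x0 y0, xg, zero_add]
      exact hy.resolve_left y0

theorem rs_F [Nontrivial A] (hS : SYM (F := F) (K := K) σ g c) (r : F) :
    Rs g c (algebraMap K A (algebraMap F K r)) (algebraMap F M r) := by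
  by_cases h : r = 0
  · right
    rw [h]
    simp
  · left
    refine ⟨?_, hS.fs r h⟩
    rw [Ne, map_eq_zero_iff _ (algebraMap K A).injective, map_eq_zero]
    exact h

end

theorem st_CU : ST_CU.{u} := by
  intro F K A M _ _ _ _ _ _ _ _ σ g c hζ hM hσ hS y w s e hD
  obtain ⟨hy, huy, hu, he⟩ := hD
  have hinj : Function.Injective (algebraMap K A) := (algebraMap K A).injective
  have y0 : y ≠ 0 := by
    intro h
    rw [h] at hy
    simp at hy
  have w0 : w ≠ 0 := by
    intro h
    rw [h, mul_zero] at hu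
    exact he ((map_eq_zero_iff _ hinj).1 hu.symm)
  have hkey : (1 + y) * (y * y - (s + 1) • y - 2) = -1 := by
    have e1 : (1 + y) * (y * y - (s + 1) • y - 2) =
        y * y - (s + 1) • y - 2 + (y * y * y - (s + 1) • (y * y) - (y + y)) := by
      rw [add_mul, one_mul, mul_sub, mul_sub, mul_smul_comm, ← mul_assoc, mul_two]
    rw [e1, hy, ← one_add_one_eq_two]
    module
  have hw : (1 + y) * (w * y) = -1 * w := by
    rw [huy, ← mul_assoc, hkey]
  -- `y` has a left inverse
  have hyinv : (y * y - s • y - (s + 3) • (1 : A)) * y = 1 := by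
    rw [sub_mul, sub_mul, hy, smul_mul_assoc, smul_mul_assoc, one_mul]
    module
  have yu : ∀ z, z ≠ 0 → y * z ≠ 0 := unit_left hyinv
  have y10 : 1 + y ≠ 0 := by
    intro h
    rw [h, zero_mul, neg_one_mul] at hw
    exact w0 (neg_eq_zero.1 hw.symm)
  have hone : g 1 = 0 ∧ c 1 = 1 := by
    have h1 := hS.fs 1 one_ne_zero
    simpa using h1
  have hneg : g (-1) = 0 ∧ c (-1) = -1 := by
    have h1 := hS.fs (-1) (neg_ne_zero.2 one_ne_zero)
    simpa using h1
  have n10 : (-1 : A) ≠ 0 := neg_ne_zero.2 one_ne_zero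
  have wy0 : w * y ≠ 0 := by
    intro h
    rw [h, mul_zero, neg_one_mul] at hw
    exact w0 (neg_eq_zero.1 hw.symm)
  have hgsum : g (1 + y) + g y = 0 := by
    have h1 := congrArg g hw
    rw [hS.gmul _ _ y10 wy0, hS.gmul w y w0 y0, hS.gmul (-1) w n10 w0, hneg.1, zero_add] at h1
    have h2 : g (1 + y) + g y + g w = 0 + g w := by
      rw [zero_add, add_assoc, add_comm (g y) (g w)]
      exact h1
    exact add_right_cancel h2
  have gy : g y = 0 := by
    rcases lt_trichotomy (g y) 0 with h | h | h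
    · have h1 := hS.addlt y 1 y0 one_ne_zero (by rw [hone.1]; exact h)
      rw [add_comm 1 y, h1.2.1] at hgsum
      exact g2_two hgsum
    · exact h
    · have h1 := hS.addlt 1 y one_ne_zero y0 (by rw [hone.1]; exact h)
      rw [h1.2.1, hone.1, zero_add] at hgsum
      exact hgsum
  have gy1 : g (1 + y) = 0 := by
    rw [gy, add_zero] at hgsum
    exact hgsum
  obtain ⟨m, hm⟩ : ∃ m : M, m = c y := ⟨_, rfl⟩
  have hm1 : 1 + m ≠ 0 := by
    intro h
    rcases hS.addz 1 y one_ne_zero y0 (by rw [hone.1, gy]) (by rw [hone.2, ← hm, h]) with h1 | h1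
    · exact y10 h1
    · rw [hone.1, gy1] at h1
      exact lt_irrefl _ h1
  have cy1 : c (1 + y) = 1 + m := by
    rw [(hS.addeq 1 y one_ne_zero y0 (by rw [hone.1, gy])
      (by rw [hone.2, ← hm]; exact hm1)).2.2, hone.2, hm]
  have hcw : c w ≠ 0 := hS.c0 w w0
  have hrel : (1 + m) * (σ ^ (n1 (g w))) m = -1 := by
    have h1 := congrArg c hw
    rw [hS.cmul _ _ y10 wy0, hS.cmul w y w0 y0, hS.cmul (-1) w n10 w0, hneg.1, hneg.2, gy1, gy,
      n1_zero, n2_zero] at h1
    simp only [zero_mul, mul_zero, zpow_zero, AlgEquiv.one_apply, mul_one] at h1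
    rw [cy1, ← hm] at h1
    have h2 : ((1 + m) * (σ ^ (n1 (g w))) m) * c w = -1 * c w := by
      rw [← h1]
      ring
    exact mul_right_cancel₀ hcw h2
  have htr : Transcendental F m := by
    intro halg
    obtain ⟨r, hr⟩ := hM m halg
    rw [hr, AlgEquiv.commutes] at hrel
    apply hζ r
    apply (algebraMap F M).injective
    rw [map_add, map_add, map_pow, map_one, map_zero]
    linear_combination hrel
  -- the element `y ^ 3 - 3 y - 1`
  have hRy : Rs g c y m := Or.inl ⟨y0, gy, hm.symm⟩
  have hR2 : Rs g c (y * y) (m * m) := by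
    have := rs_mul hS y0 yu gy hRy
    rw [← hm] at this
    exact this
  have hR3 : Rs g c (y * (y * y)) (m * (m * m)) := by
    have := rs_mul hS y0 yu gy hR2
    rw [← hm] at this
    exact this
  have hR4 : Rs g c (y * algebraMap K A (algebraMap F K (-3))) (m * algebraMap F M (-3)) := by
    have := rs_mul hS y0 yu gy (rs_F hS (-3))
    rw [← hm] at this
    exact this
  have hRX := rs_add hS (rs_add hS hR3 hR4) (rs_F hS (-1))
  have hX : y * (y * y) + y * algebraMap K A (algebraMap F K (-3)) +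
      algebraMap K A (algebraMap F K (-1)) = algebraMap K A s * (y * (1 + y)) := by
    rw [← mul_assoc y y y, hy, ← Algebra.smul_def, mul_add, mul_one]
    have e1 : algebraMap K A (algebraMap F K (-1)) = (-1 : K) • (1 : A) := by
      rw [map_neg, map_one, Algebra.algebraMap_eq_smul_one]
    have e2 : y * algebraMap K A (algebraMap F K (-3)) = (-3 : K) • y := by
      have : algebraMap F K (-3) = (-3 : K) := by
        rw [map_neg, map_ofNat]
      rw [this, ← Algebra.commutes, ← Algebra.smul_def]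
    rw [e1, e2]
    module
  rw [hX] at hRX
  have hpol : m * (m * m) + m * algebraMap F M (-3) + algebraMap F M (-1) ≠ 0 := by
    intro h
    apply htr
    apply cu_alg 0 (-3) (-1) m
    rw [map_zero]
    linear_combination h
  rcases hRX with ⟨x0, xg, xc⟩ | ⟨h1, -⟩
  · have hyy : y * (1 + y) ≠ 0 := yu _ y10
    have hs0 : algebraMap K A s ≠ 0 := left_ne_zero_of_mul x0
    have hgs : g (algebraMap K A s) = 0 := by
      rw [hS.gmul _ _ hs0 hyy, hS.gmul _ _ y0 y10, gy, gy1, add_zero, add_zero] at xg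
      exact xg
    refine ⟨fun h => hs0 (by rw [h, map_zero]), hgs, ?_⟩
    intro halg
    obtain ⟨r, hr⟩ := hM _ halg
    rw [hS.cmul _ _ hs0 hyy, hS.cmul _ _ y0 y10, hgs, gy, n1_zero] at xc
    simp only [zero_mul, zpow_zero, AlgEquiv.one_apply, mul_one] at xc
    rw [cy1, hr, ← hm] at xc
    apply htr
    apply cu_alg (-r) (-(r + 3)) (-1) m
    have e3 : algebraMap F M (-(r + 3)) = -(algebraMap F M r + 3) := by
      rw [map_neg, map_add, map_ofNat]
    have e4 : algebraMap F M (-3) = -3 := by
      rw [map_neg, map_ofNat]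
    rw [e3, map_neg, map_neg, map_one]
    rw [e4, map_neg, map_one] at xc
    linear_combination -xc
  · exact absurd h1 hpol

end Pool.Agent.Helper34.PZ
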